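import Mathlib

/-!
Flows on the tree of a factor-closed language: either the number of words of length `k`
is `O(lam ^ k)`, or there is a bounded weight on words that expands by the factor `lam`.
-/

set_option autoImplicit false

open Filter Topology

namespace Pool.Agent.P.MP_a6ddc5_al

variable {α : Type*} [Fintype α]

open Classical in
/-- `cnt P k w` counts the extensions of `w` by `k` letters that satisfy `P`. -/
noncomputable def cnt (P : List α → Prop) : ℕ → List α → ℕ
  | 0, w => if P w then 1 else 0
  | k + 1, w => ∑ b : α, cnt P k (w ++ [b])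

open Classical in
/-- the extensions of `w` by `k` letters that satisfy `P`. -/
noncomputable def ext (P : List α → Prop) : ℕ → List α → Finset (List α)
  | 0, w => if P w then {w} else ∅
  | k + 1, w => Finset.univ.biUnion fun b : α => ext P k (w ++ [b])

theorem card_ext_le (P : List α → Prop) : ∀ (k : ℕ) (w : List α), (ext P k w).card ≤ cnt P k w
  | 0, w => by
    unfold ext cnt
    split_ifs <;> simp
  | k + 1, w => by
    classical
    unfold ext cnt
    refine le_trans (by convert Finset.card_biUnion_le) ?_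
    exact Finset.sum_le_sum fun b _ => card_ext_le P k _

theorem mem_ext (P : List α → Prop) : ∀ (v w : List α), P (w ++ v) → w ++ v ∈ ext P v.length w
  | [], w, h => by
    simp only [List.append_nil] at h
    simp [ext, h]
  | b :: v, w, h => by
    have h' : P ((w ++ [b]) ++ v) := by simpa using h
    have := mem_ext P v (w ++ [b]) h'
    simp only [List.length_cons, ext, Finset.mem_biUnion, Finset.mem_univ, true_and]
    exact ⟨b, by simpa using this⟩

theorem cnt_append_le (P : List α → Prop) (hsuf : ∀ u w, P (u ++ w) → P w) :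
    ∀ (k : ℕ) (u w : List α), cnt P k (u ++ w) ≤ cnt P k w
  | 0, u, w => by
    unfold cnt
    by_cases h : P (u ++ w)
    · simp [h, hsuf u w h]
    · simp [h]
  | k + 1, u, w => by
    unfold cnt
    refine Finset.sum_le_sum fun b _ => ?_
    rw [List.append_assoc]
    exact cnt_append_le P hsuf k u _

theorem cnt_eq_zero (P : List α → Prop) (hpre : ∀ u w, P (u ++ w) → P u) :
    ∀ (k : ℕ) (w : List α), ¬ P w → cnt P k w = 0
  | 0, w, h => by simp [cnt, h]
  | k + 1, w, h => by
    unfold cnt
    exact Finset.sum_eq_zero fun b _ => cnt_eq_zero P hpre k _ fun h' => h (hpre _ _ h')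

theorem exists_record (b : ℕ → ℝ) (hb : ∀ i, 0 ≤ b i) (h : ¬ ∃ M, ∀ k, b k ≤ M) (N : ℕ) :
    ∃ k, N ≤ k ∧ 0 < b k ∧ ∀ i ≤ k, b i ≤ b k := by
  push Not at h
  obtain ⟨k0, hk0⟩ := h (∑ i ∈ Finset.range N, b i)
  obtain ⟨k, hk, hmax⟩ := Finset.exists_max_image (Finset.range (k0 + 1)) b
    ⟨0, by simp⟩
  have hk0k : b k0 ≤ b k := hmax k0 (by simp)
  have hsum : 0 ≤ ∑ i ∈ Finset.range N, b i := Finset.sum_nonneg fun i _ => hb i
  refine ⟨k, ?_, by linarith, fun i hi => hmax i ?_⟩
  · by_contra hlt
    have : b k ≤ ∑ i ∈ Finset.range N, b i :=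
      Finset.single_le_sum (fun i _ => hb i) (by simpa using hlt)
    linarith
  · simp only [Finset.mem_range] at hk ⊢
    omega

theorem exists_flow (P : List α → Prop) (hsuf : ∀ u w, P (u ++ w) → P w)
    (hpre : ∀ u w, P (u ++ w) → P u) (lam : ℝ) (hlam : 0 < lam)
    (h : ¬ ∃ M : ℝ, ∀ k, (cnt P k [] : ℝ) ≤ M * lam ^ k) :
    ∃ m : List α → ℝ, (∀ w, 0 ≤ m w ∧ m w ≤ 1) ∧ m [] = 1 ∧ (∀ w, ¬ P w → m w = 0) ∧
      ∀ w, lam * m w = ∑ b : α, m (w ++ [b]) := by
  set b : ℕ → List α → ℝ := fun k w => (cnt P k w : ℝ) / lam ^ k with hb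
  have hb0 : ∀ k w, 0 ≤ b k w := fun k w => by positivity
  have hunb : ¬ ∃ M, ∀ k, b k [] ≤ M := by
    rintro ⟨M, hM⟩
    refine h ⟨M, fun k => ?_⟩
    have := hM k
    simp only [hb] at this
    rwa [div_le_iff₀ (by positivity)] at this
  let F : ℕ → Set (List α → ℝ) := fun N =>
    {m | (∀ w, m w ∈ Set.Icc (0 : ℝ) 1) ∧ m [] = 1 ∧ (∀ w, ¬ P w → m w = 0) ∧
      ∀ w : List α, w.length < N → lam * m w = ∑ c : α, m (w ++ [c])}
  have hclosed : ∀ N, IsClosed (F N) := by
    intro N
    simp only [F, Set.ofPred_and, Set.ofPred_forall]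
    refine IsClosed.inter (isClosed_iInter fun w => ?_) (IsClosed.inter ?_ (IsClosed.inter
      (isClosed_iInter fun w => isClosed_iInter fun _ => ?_)
      (isClosed_iInter fun w => isClosed_iInter fun _ => ?_)))
    · exact isClosed_Icc.preimage (continuous_apply w)
    · exact isClosed_eq (continuous_apply _) continuous_const
    · exact isClosed_eq (continuous_apply _) continuous_const
    · exact isClosed_eq (by fun_prop) (by fun_prop)
  have hcomp : IsCompact (F 0) := by
    refine (isCompact_univ_pi fun _ : List α => isCompact_Icc (a := (0 : ℝ)) (b := 1)).of_isClosed_subset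
      (hclosed 0) ?_
    intro m hm w _
    exact hm.1 w
  have hne : ∀ N, (F N).Nonempty := by
    intro N
    obtain ⟨k, hNk, hpos, hrec⟩ := exists_record (fun k => b k []) (fun i => hb0 i []) hunb N
    refine ⟨fun w => if w.length ≤ k then b (k - w.length) w / b k [] else 0, ?_, ?_, ?_, ?_⟩
    · intro w
      by_cases hw : w.length ≤ k
      · simp only [hw, if_true]
        refine ⟨div_nonneg (hb0 _ _) hpos.le, ?_⟩
        rw [div_le_one hpos]
        refine le_trans ?_ (hrec (k - w.length) (Nat.sub_le _ _))
        have := cnt_append_le P hsuf (k - w.length) w []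
        rw [List.append_nil] at this
        simp only [hb]
        gcongr
      · simp [hw]
    · simp [hpos.ne']
    · intro w hw
      simp [hb, cnt_eq_zero P hpre _ w hw]
    · intro w hw
      have hw1 : w.length ≤ k := by omega
      have hw2 : w.length + 1 ≤ k := by omega
      obtain ⟨j, hj⟩ : ∃ j, k - w.length = j + 1 := ⟨k - w.length - 1, by omega⟩
      have hj' : k - (w.length + 1) = j := by omega
      simp only [hw1, if_true, List.length_append, List.length_singleton, hw2, hj, hj']
      rw [← Finset.sum_div, ← mul_div_assoc]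
      congr 1
      simp only [hb, cnt]
      rw [← Finset.sum_div]
      push_cast
      field_simp
      ring
  obtain ⟨m, hm⟩ := IsCompact.nonempty_iInter_of_sequence_nonempty_isCompact_isClosed F
    (fun N m hm => ⟨hm.1, hm.2.1, hm.2.2.1, fun w hw => hm.2.2.2 w (by omega)⟩) hne hcomp hclosed
  rw [Set.mem_iInter] at hm
  exact ⟨m, fun w => (hm 0).1 w, (hm 0).2.1, (hm 0).2.2.1,
    fun w => (hm (w.length + 1)).2.2.2 w (by omega)⟩

/-! ### Shortlex normal forms -/

section Normal

variable {G : Type*} [Group G]

theorem lex_append_right {β : Type*} {r : β → β → Prop} {s t : List β} (h : List.Lex r s t)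
    (hl : s.length = t.length) (w : List β) : List.Lex r (s ++ w) (t ++ w) := by
  induction h with
  | nil => simp at hl
  | rel h => exact List.Lex.rel h
  | cons _ ih => exact List.Lex.cons (ih (by simpa using hl))

theorem shortlex_append_both {β : Type*} {r : β → β → Prop} {s t : List β}
    (h : List.Shortlex r s t) (w : List β) : List.Shortlex r (s ++ w) (t ++ w) := by
  rcases List.shortlex_def.mp h with h1 | ⟨h1, h2⟩
  · exact List.Shortlex.of_length_lt (by simpa using h1)
  · exact List.Shortlex.of_lex (by simpa using h1) (lex_append_right h2 h1 w)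

/-- the group element a word spells -/
def ev (gen : α → G) (w : List α) : G := (w.map gen).prod

/-- shortlex-least words among those spelling the same element -/
def NF (gen : α → G) (w : List α) : Prop :=
  ∀ w', ev gen w' = ev gen w → ¬ List.Shortlex WellOrderingRel w' w

omit [Fintype α] in
theorem ev_append (gen : α → G) (u w : List α) : ev gen (u ++ w) = ev gen u * ev gen w := by
  simp [ev]

omit [Fintype α] in
theorem NF_suffix (gen : α → G) (u w : List α) (h : NF gen (u ++ w)) : NF gen w :=
  fun w' hw' hlt => h (u ++ w') (by rw [ev_append, ev_append, hw']) (hlt.append_left u)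

omit [Fintype α] in
theorem NF_prefix (gen : α → G) (u w : List α) (h : NF gen (u ++ w)) : NF gen u :=
  fun u' hu' hlt => h (u' ++ w) (by rw [ev_append, ev_append, hu']) (shortlex_append_both hlt w)

omit [Fintype α] in
theorem NF_unique (gen : α → G) {u w : List α} (hu : NF gen u) (hw : NF gen w)
    (h : ev gen u = ev gen w) : u = w := by
  rcases trichotomous_of (List.Shortlex (WellOrderingRel (α := α))) u w with h1 | h1 | h1
  · exact absurd h1 (hw u h)
  · exact h1
  · exact absurd h1 (hu w h.symm)

omit [Fintype α] in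
theorem exists_NF (gen : α → G) (w : List α) :
    ∃ u, NF gen u ∧ ev gen u = ev gen w ∧ u.length ≤ w.length := by
  have hwf : WellFounded (List.Shortlex (WellOrderingRel (α := α))) :=
    List.Shortlex.wf (IsWellFounded.wf)
  obtain ⟨u, hu, hmin⟩ := hwf.has_min {u | ev gen u = ev gen w} ⟨w, rfl⟩
  refine ⟨u, fun w' hw' => hmin w' (hw'.trans hu), hu, ?_⟩
  by_contra hlt
  exact hmin w rfl (List.Shortlex.of_length_lt (by omega))

/-- If normal forms are not `O(lam ^ k)` in number, the Cayley graph carries a nonzero bounded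
nonnegative edge weight whose outflow at each vertex is at least `lam` times its inflow. -/
theorem exists_edge_flow (gen : α → G) (lam : ℝ) (hlam : 0 < lam)
    (h : ¬ ∃ M : ℝ, ∀ k, (cnt (NF gen) k [] : ℝ) ≤ M * lam ^ k) :
    ∃ x : G × α → ℝ, (∀ p, 0 ≤ x p ∧ x p ≤ 1) ∧ x ≠ 0 ∧
      ∀ g, lam * ∑ a : α, x (g * (gen a)⁻¹, a) ≤ ∑ a : α, x (g, a) := by
  classical
  obtain ⟨m, hm01, hm1, hm0, hflow⟩ :=
    exists_flow (NF gen) (NF_suffix gen) (NF_prefix gen) lam hlam h
  let x : G × α → ℝ := fun p =>
    if hp : ∃ w, NF gen w ∧ ev gen w = p.1 then m (hp.choose ++ [p.2]) else 0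
  have hx : ∀ w a, NF gen w → x (ev gen w, a) = m (w ++ [a]) := by
    intro w a hw
    have hp : ∃ w', NF gen w' ∧ ev gen w' = ev gen w := ⟨w, hw, rfl⟩
    have : hp.choose = w := NF_unique gen hp.choose_spec.1 hw hp.choose_spec.2
    simp only [x, dif_pos hp, this]
  have hx0 : ∀ p, 0 ≤ x p ∧ x p ≤ 1 := by
    intro p
    simp only [x]
    split_ifs
    · exact hm01 _
    · simp
  have hsupp : ∀ g a, x (g, a) ≠ 0 → ∃ w, NF gen w ∧ ev gen w = g ∧ NF gen (w ++ [a]) := by
    intro g a hne
    by_cases hp : ∃ w, NF gen w ∧ ev gen w = g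
    · obtain ⟨w, hw, rfl⟩ := hp
      rw [hx w a hw] at hne
      exact ⟨w, hw, rfl, by by_contra hc; exact hne (hm0 _ hc)⟩
    · exact absurd (by simp only [x, dif_neg hp]) hne
  have hnil : NF gen [] := fun w' _ => List.not_shortlex_nil_right
  refine ⟨x, hx0, ?_, ?_⟩
  · intro hzero
    have h1 := hflow []
    have h2 : ∀ a, m ([] ++ [a]) = 0 := fun a => by rw [← hx [] a hnil, hzero]; rfl
    simp only [h2, hm1, Finset.sum_const_zero] at h1
    linarith
  · intro g
    by_cases hin : ∃ a, x (g * (gen a)⁻¹, a) ≠ 0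
    · obtain ⟨a, ha⟩ := hin
      obtain ⟨w, hw, hwg, hwa⟩ := hsupp _ _ ha
      have hev : ev gen (w ++ [a]) = g := by
        rw [ev_append, hwg]; simp [ev]
      have hsum : ∑ c : α, x (g * (gen c)⁻¹, c) = m (w ++ [a]) := by
        rw [Finset.sum_eq_single a]
        · rw [← hwg, hx w a hw]
        · intro c _ hca
          by_contra hc
          obtain ⟨w', _, hwg', hwc⟩ := hsupp _ _ hc
          have hev' : ev gen (w' ++ [c]) = g := by
            rw [ev_append, hwg']; simp [ev]
          have := NF_unique gen hwc hwa (hev'.trans hev.symm)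
          have h3 := congrArg List.getLast? this
          simp at h3
          exact hca h3
        · simp
      rw [hsum, hflow, ← hev]
      exact le_of_eq (Finset.sum_congr rfl fun c _ => (hx _ c hwa).symm)
    · push Not at hin
      simp only [hin, Finset.sum_const_zero, mul_zero]
      exact Finset.sum_nonneg fun a _ => (hx0 _).1

end Normal

end Pool.Agent.P.MP_a6ddc5_al
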