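import Mathlib
import Pool.Agent.P.MP_a6ddc5_al.Tree

set_option autoImplicit false

open Filter Topology

namespace Pool.Agent.P.MP_a6ddc5_al

universe u

/-- The weak uniform structure of a real topological vector space `E`: the coarsest uniform
structure making every continuous linear form uniformly continuous. -/
@[reducible] def wU (E : Type u) [AddCommGroup E] [Module ℝ E] [TopologicalSpace E] :
    UniformSpace E :=
  ⨅ l : E →L[ℝ] ℝ, UniformSpace.comap l inferInstance

/-- The fixed-point property for cones: every representation of `G` on a weakly complete proper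
convex cone of a real locally convex Hausdorff space that is of locally bounded type and of
cobounded type has a nonzero fixed point in the cone. -/
def FPP (G : Type u) [Group G] : Prop :=
  ∀ (E : Type u) [AddCommGroup E] [Module ℝ E] [TopologicalSpace E] [IsTopologicalAddGroup E]
    [ContinuousSMul ℝ E] [LocallyConvexSpace ℝ E] [T2Space E]
    (C : ConvexCone ℝ E) (ρ : G →* (E →L[ℝ] E)),
    (C : Set E) ∩ (-(C : Set E)) = {0} →
    @IsComplete E (wU E) (C : Set E) →
    (∀ g : G, ∀ x ∈ C, ρ g x ∈ C) →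
    (∃ x ∈ C, x ≠ 0 ∧ Bornology.IsVonNBounded ℝ (Set.range fun g : G => ρ g x)) →
    (∃ φ : E →L[ℝ] ℝ, ∀ l : E →L[ℝ] ℝ, ∃ (n : ℕ) (g : Fin n → G), ∀ x ∈ C,
      l x ≤ ∑ i, φ (ρ (g i)⁻¹ x) ∧ -l x ≤ ∑ i, φ (ρ (g i)⁻¹ x)) →
    ∃ x ∈ C, x ≠ 0 ∧ ∀ g : G, ρ g x = x

/-- The ball of radius `n` about the identity in the word metric of `S`. -/
def wball {G : Type u} [Group G] (S : Finset G) (n : ℕ) : Set G :=
  {g | ∃ w : List G, w.length ≤ n ∧ (∀ s ∈ w, s ∈ S ∨ s⁻¹ ∈ S) ∧ w.prod = g}


theorem wU_pi (ι : Type u) :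
    wU (ι → ℝ) = (inferInstance : UniformSpace (ι → ℝ)) := by
  apply le_antisymm
  · change _ ≤ Pi.uniformSpace fun _ : ι => ℝ
    rw [Pi.uniformSpace_eq]
    exact le_iInf fun i => iInf_le_of_le (ContinuousLinearMap.proj i) le_rfl
  · exact le_iInf fun l => uniformContinuous_iff_le_comap.mp l.uniformContinuous

theorem count_le {G : Type u} [Group G] (hG : FPP G) {α : Type u}
    [Fintype α] (gen : α → G) (lam : ℝ) (hlam : 1 < lam) :
    ∃ M : ℝ, ∀ k, (cnt (NF gen) k [] : ℝ) ≤ M * lam ^ k := by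
  by_contra h
  obtain ⟨x0, hx01, hx0, hflow⟩ := exists_edge_flow gen lam (by linarith) h
  let C : ConvexCone ℝ (G × α → ℝ) :=
    { carrier := {x | (∀ p, 0 ≤ x p) ∧
        ∀ g, lam * ∑ a : α, x (g * (gen a)⁻¹, a) ≤ ∑ a : α, x (g, a)}
      smul_mem' := by
        rintro c hc x ⟨h1, h2⟩
        refine ⟨fun p => mul_nonneg hc.le (h1 p), fun g => ?_⟩
        simp only [Pi.smul_apply, smul_eq_mul, ← Finset.mul_sum]
        nlinarith [h2 g]
      add_mem' := by
        rintro x ⟨h1, h2⟩ y ⟨h3, h4⟩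
        refine ⟨fun p => add_nonneg (h1 p) (h3 p), fun g => ?_⟩
        simp only [Pi.add_apply, Finset.sum_add_distrib]
        nlinarith [h2 g, h4 g] }
  have hC : ∀ x, x ∈ C ↔ (∀ p, 0 ≤ x p) ∧
      ∀ g, lam * ∑ a : α, x (g * (gen a)⁻¹, a) ≤ ∑ a : α, x (g, a) := fun x => Iff.rfl
  let ρ : G →* ((G × α → ℝ) →L[ℝ] (G × α → ℝ)) :=
    { toFun := fun h => ContinuousLinearMap.pi fun p => ContinuousLinearMap.proj (h⁻¹ * p.1, p.2)
      map_one' := by ext x p; simp
      map_mul' := by intro a b; ext x p; simp [mul_assoc] }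
  have hρ : ∀ h x p, ρ h x p = x (h⁻¹ * p.1, p.2) := fun _ _ _ => rfl
  let φ : (G × α → ℝ) →L[ℝ] ℝ := ∑ a : α, ContinuousLinearMap.proj (1, a)
  have hφ : ∀ g x, φ (ρ g⁻¹ x) = ∑ a : α, x (g, a) := by
    intro g x
    simp [φ, hρ]
  refine (hG (G × α → ℝ) C ρ ?_ ?_ ?_ ?_ ?_).elim ?_
  rotate_right
  · rintro x ⟨hxC, hxne, hfix⟩
    have hconst : ∀ g a, x (g, a) = x (1, a) := by
      intro g a
      have := congrFun (hfix g) (g, a)
      rw [hρ] at this
      simpa using this.symm
    have h2 := ((hC x).1 hxC).2 1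
    have h1 := ((hC x).1 hxC).1
    simp only [hconst (1 * _)] at h2
    have hs : 0 ≤ ∑ a : α, x (1, a) := Finset.sum_nonneg fun a _ => h1 _
    have hs0 : ∑ a : α, x (1, a) = 0 := by nlinarith
    rw [Finset.sum_eq_zero_iff_of_nonneg fun a _ => h1 _] at hs0
    apply hxne
    funext p
    obtain ⟨g, a⟩ := p
    rw [hconst, hs0 a (Finset.mem_univ a)]
    rfl
  · ext x
    simp only [Set.mem_inter_iff, Set.mem_neg, SetLike.mem_coe, Set.mem_singleton_iff, hC]
    constructor
    · rintro ⟨⟨h1, -⟩, ⟨h2, -⟩⟩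
      funext p
      have := h2 p
      simp only [Pi.neg_apply] at this
      exact le_antisymm (by simpa using this) (h1 p)
    · rintro rfl
      simp
  · rw [wU_pi]
    apply IsClosed.isComplete
    have : (C : Set (G × α → ℝ)) = (⋂ p, {x | 0 ≤ x p}) ∩
        ⋂ g, {x | lam * ∑ a : α, x (g * (gen a)⁻¹, a) ≤ ∑ a : α, x (g, a)} := by
      ext x
      simp [hC]
    rw [this]
    exact (isClosed_iInter fun p => isClosed_le continuous_const (continuous_apply p)).inter
      (isClosed_iInter fun g => isClosed_le (by fun_prop) (by fun_prop))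
  · intro h x hx
    rw [hC] at hx ⊢
    refine ⟨fun p => hx.1 _, fun g => ?_⟩
    simpa [hρ, mul_assoc] using hx.2 (h⁻¹ * g)
  · refine ⟨x0, ⟨fun p => (hx01 p).1, hflow⟩, hx0, ?_⟩
    rw [Bornology.isVonNBounded_pi_iff]
    intro p
    rw [NormedSpace.isVonNBounded_iff]
    refine (Metric.isBounded_Icc (0 : ℝ) 1).subset ?_
    rintro _ ⟨_, ⟨g, rfl⟩, rfl⟩
    exact hx01 _
  · refine ⟨φ, fun l => ?_⟩
    have hl : (l : (G × α → ℝ) →ₗ[ℝ] ℝ) ∈ Submodule.span ℝ
        (Set.range fun p : G × α => (LinearMap.proj p : (G × α → ℝ) →ₗ[ℝ] ℝ)) :=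
      (LinearMap.mem_span_iff_continuous _).2 l.continuous
    have key : ∀ l' ∈ Submodule.span ℝ
        (Set.range fun p : G × α => (LinearMap.proj p : (G × α → ℝ) →ₗ[ℝ] ℝ)),
        ∃ gs : List G, ∀ x ∈ C, |l' x| ≤ (gs.map fun g => ∑ a : α, x (g, a)).sum := by
      intro l' hl'
      induction hl' using Submodule.span_induction with
      | mem l' h =>
        obtain ⟨⟨g, a⟩, rfl⟩ := h
        refine ⟨[g], fun x hx => ?_⟩
        have h1 := ((hC x).1 hx).1
        simp only [LinearMap.proj_apply, List.map_cons, List.map_nil, List.sum_cons,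
          List.sum_nil, add_zero]
        rw [abs_of_nonneg (h1 _)]
        exact Finset.single_le_sum (f := fun a => x (g, a)) (fun a _ => h1 _) (Finset.mem_univ a)
      | zero => exact ⟨[], fun x _ => by simp⟩
      | add l1 l2 _ _ h1 h2 =>
        obtain ⟨g1, h1⟩ := h1
        obtain ⟨g2, h2⟩ := h2
        refine ⟨g1 ++ g2, fun x hx => ?_⟩
        rw [List.map_append, List.sum_append, LinearMap.add_apply]
        exact (abs_add_le _ _).trans (add_le_add (h1 x hx) (h2 x hx))
      | smul c l1 _ h1 =>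
        obtain ⟨g1, h1⟩ := h1
        obtain ⟨N, hN⟩ := exists_nat_ge |c|
        refine ⟨(List.replicate N g1).flatten, fun x hx => ?_⟩
        have hrep : (((List.replicate N g1).flatten).map fun g => ∑ a : α, x (g, a)).sum
            = N * (g1.map fun g => ∑ a : α, x (g, a)).sum := by
          simp [List.map_flatten, List.sum_flatten]
        rw [hrep, LinearMap.smul_apply, smul_eq_mul, abs_mul]
        exact mul_le_mul hN (h1 x hx) (abs_nonneg _) (Nat.cast_nonneg N)
    obtain ⟨gs, hgs⟩ := key _ hl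
    refine ⟨gs.length, gs.get, fun x hx => ?_⟩
    have hsum : ∑ i, φ (ρ (gs.get i)⁻¹ x) = (gs.map fun g => ∑ a : α, x (g, a)).sum := by
      simp only [hφ]
      exact Fin.sum_univ_fun_getElem gs fun g => ∑ a : α, x (g, a)
    rw [hsum]
    have := abs_le.1 (hgs x hx)
    exact ⟨this.2, by have := this.1; simp only [ContinuousLinearMap.coe_coe] at this; linarith⟩

theorem wball_subset {G : Type u} [Group G] [DecidableEq G] (S : Finset G) (n : ℕ) :
    wball S n ⊆ ((Finset.range (n + 1)).biUnion fun k =>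
      (ext (NF fun a : {s : G // s ∈ S ∪ S.image (·⁻¹)} => (a : G)) k []).image
        (ev fun a : {s : G // s ∈ S ∪ S.image (·⁻¹)} => (a : G)) : Finset G) := by
  rintro g ⟨w, hlen, hw, rfl⟩
  have hw' : ∀ s ∈ w, s ∈ S ∪ S.image (·⁻¹) := by
    intro s hs
    rcases hw s hs with h | h
    · exact Finset.mem_union_left _ h
    · exact Finset.mem_union_right _ (Finset.mem_image.2 ⟨s⁻¹, h, inv_inv s⟩)
  obtain ⟨v, hv, hev, hvl⟩ := exists_NF
    (fun a : {s : G // s ∈ S ∪ S.image (·⁻¹)} => (a : G)) (w.attachWith _ hw')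
  simp only [Finset.coe_biUnion, Finset.coe_range, Finset.coe_image, Set.mem_iUnion]
  refine ⟨v.length, ?_, v, ?_, ?_⟩
  · simp only [List.length_attachWith] at hvl
    simp only [Set.mem_Iio]
    omega
  · simpa using mem_ext _ v [] (by simpa using hv)
  · rw [hev]
    simp [ev]

/-- A group with the fixed-point property for cones has subexponential growth with respect to
every finite generating set. -/
theorem growth_tendsto (G : Type u) [Group G] (hG : FPP G) (S : Finset G) :
    Tendsto (fun n : ℕ => ((wball S n).ncard : ℝ) ^ (1 / (n : ℝ))) atTop (𝓝 1) := by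
  classical
  set gen : {s : G // s ∈ S ∪ S.image (·⁻¹)} → G := fun a => (a : G) with hgen
  have hfin : ∀ n, (wball S n).Finite := fun n => (Finset.finite_toSet _).subset (wball_subset S n)
  have hlow : ∀ n, (1 : ℝ) ≤ (wball S n).ncard := by
    intro n
    have : 0 < (wball S n).ncard := (Set.ncard_pos (hfin n)).2 ⟨1, [], by simp, by simp, rfl⟩
    exact_mod_cast this
  have hup : ∀ n, ((wball S n).ncard : ℝ) ≤ ∑ k ∈ Finset.range (n + 1), (cnt (NF gen) k [] : ℝ) := by
    intro n
    have h1 := Set.ncard_le_ncard (wball_subset S n) (Finset.finite_toSet _)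
    rw [Set.ncard_coe_finset] at h1
    have h2 := h1.trans (Finset.card_biUnion_le.trans (Finset.sum_le_sum fun k _ =>
      Finset.card_image_le.trans (card_ext_le (NF gen) k [])))
    exact_mod_cast h2
  rw [tendsto_order]
  constructor
  · intro a ha
    exact Eventually.of_forall fun n =>
      ha.trans_le (Real.one_le_rpow (hlow n) (by positivity))
  · intro a ha
    obtain ⟨b, hb1, hba⟩ := exists_between ha
    obtain ⟨lam, hlam, hlb⟩ := exists_between hb1
    obtain ⟨M, hM⟩ := count_le hG gen lam hlam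
    have hM0 : 0 ≤ M := by
      have := hM 0
      simp only [pow_zero, mul_one] at this
      exact (Nat.cast_nonneg _).trans this
    have hbound : ∀ n, ((wball S n).ncard : ℝ) ≤ (n + 1) * M * lam ^ n := by
      intro n
      refine (hup n).trans ?_
      calc ∑ k ∈ Finset.range (n + 1), (cnt (NF gen) k [] : ℝ)
          ≤ ∑ _k ∈ Finset.range (n + 1), M * lam ^ n := by
            refine Finset.sum_le_sum fun k hk => (hM k).trans ?_
            have hk' : k ≤ n := by simp only [Finset.mem_range] at hk; omega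
            exact mul_le_mul_of_nonneg_left (pow_le_pow_right₀ hlam.le hk') hM0
        _ = (n + 1) * M * lam ^ n := by simp [mul_assoc]
    have hq0 : 0 ≤ lam / b := by positivity
    have hq1 : lam / b < 1 := by rw [div_lt_one (by linarith)]; exact hlb
    have ht : Tendsto (fun n : ℕ => ((n : ℝ) * (lam / b) ^ n + (lam / b) ^ n) * M) atTop
        (𝓝 ((0 + 0) * M)) :=
      ((tendsto_self_mul_const_pow_of_lt_one hq0 hq1).add
        (tendsto_pow_atTop_nhds_zero_of_lt_one hq0 hq1)).mul_const M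
    have hev : ∀ᶠ n : ℕ in atTop, ((n : ℝ) * (lam / b) ^ n + (lam / b) ^ n) * M < 1 :=
      ht.eventually (gt_mem_nhds (by simp))
    filter_upwards [hev, eventually_gt_atTop 0] with n hn hn0
    have hbpos : 0 < b := by linarith
    have h1 : ((wball S n).ncard : ℝ) ≤ b ^ n := by
      refine (hbound n).trans ?_
      have : ((n : ℝ) + 1) * M * lam ^ n
          = (((n : ℝ) * (lam / b) ^ n + (lam / b) ^ n) * M) * b ^ n := by
        rw [div_pow]
        field_simp
      rw [this]
      exact mul_le_of_le_one_left (by positivity) hn.le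
    calc ((wball S n).ncard : ℝ) ^ (1 / (n : ℝ)) ≤ (b ^ n) ^ (1 / (n : ℝ)) :=
          Real.rpow_le_rpow (Nat.cast_nonneg _) h1 (by positivity)
      _ = b := by rw [one_div]; exact Real.pow_rpow_inv_natCast hbpos.le hn0.ne'
      _ < a := hba

end Pool.Agent.P.MP_a6ddc5_al
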